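import Pool.Agent.P.MP_d0f69c_mp.NW7

set_option autoImplicit false

open MeasureTheory ProbabilityTheory
open scoped NNReal

namespace Pool.Agent.Results.MP_d0f69c_mp.CauchyNoisePlane

/-- `μ` is the spectral measure of the square summable vector `ψ` for the operator
`H = -(discrete Laplacian) + V` on `ℓ²(ℤ²)`, where the real potential `V` may be unbounded:
for each non-real `z` the square summable solution `u` of `(H - z) u = ψ` satisfies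
`∫ (x - z)⁻¹ dμ = ⟨ψ, u⟩`. -/
def IsSpectralMeasure (V : (Fin 2 → ℤ) → ℝ) (ψ : (Fin 2 → ℤ) → ℂ) (μ : Measure ℝ) : Prop :=
  IsFiniteMeasure μ ∧ ∀ z : ℂ, z.im ≠ 0 → ∃ u : (Fin 2 → ℤ) → ℂ, (Summable fun j => ‖u j‖ ^ 2) ∧
    (∀ j, -(∑ i : Fin 2, ((u (j + Pi.single i 1) - u j) + (u (j - Pi.single i 1) - u j)))
      + V j * u j - z * u j = ψ j) ∧
    ∫ x : ℝ, ((x : ℂ) - z)⁻¹ ∂μ = ∑' j, (starRingEnd ℂ) (ψ j) * u j

theorem result (v : (Fin 2 → ℤ) → ℝ) (ε : (Fin 2 → ℤ) → ℝ≥0) (a : ℕ → ℝ)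
    (ha : ∀ R, 0 ≤ a R ∧ a R ≤ 1)
    (hε : ∀ (R : ℕ) (x : Fin 2 → ℤ), max |x 0| |x 1| = R ∨ max |x 0| |x 1| = R + 1 → a R ≤ ε x)
    (hdiv : ¬ Summable fun R : ℕ => a R ^ 2 / R) :
    ∀ᵐ c ∂(Measure.infinitePi fun x : Fin 2 → ℤ => cauchyMeasure 0 (ε x)),
      ∀ ψ : (Fin 2 → ℤ) → ℂ, (Summable fun j => ‖ψ j‖ ^ 2) →
        ∀ μ : Measure ℝ, IsSpectralMeasure (v + c) ψ μ → μ ⟂ₘ volume := by
  have h := Pool.Agent.P.MP_d0f69c_mp.NW.prob v ε (fun R => (ha R).1) (fun R => (ha R).2)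
    (fun R y hy => hε R y (by
      simp only [Pool.Agent.P.MP_d0f69c_mp.NW.rad] at hy
      rw [← Int.natCast_natAbs, ← Int.natCast_natAbs]
      omega)) hdiv
  filter_upwards [h] with c hc ψ hψ μ hμ
  have := hμ.1
  exact Pool.Agent.P.MP_d0f69c_mp.NW.det hc hψ μ hμ.2

end Pool.Agent.Results.MP_d0f69c_mp.CauchyNoisePlane
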