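import Pool.Agent.P.MP_d0f69c_mp.XS.PAll

set_option autoImplicit false

open MeasureTheory

namespace Pool.Agent.Results.MP_d0f69c_mp.UnitCouplingAC

/-- `w = Δ u`, where `Δ` is minus the discrete Laplacian plus the potential `±1`. -/
def ActsAs {d : ℕ} (ω : (Fin d → ℤ) → Bool) (u w : (Fin d → ℤ) → ℂ) : Prop :=
  ∀ j : Fin d → ℤ, w j = -(∑ i : Fin d,
      ((u (j + Pi.single i 1) - u j) + (u (j - Pi.single i 1) - u j)))
    + (if ω j then (1 : ℂ) else -1) * u j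

/-- `μ` is the spectral measure of the vector `ψ` for the operator `H`. -/
def IsSpectralMeasure {X : Type} [NormedAddCommGroup X] [InnerProductSpace ℂ X]
    (H : X →L[ℂ] X) (ψ : X) (μ : Measure ℝ) : Prop :=
  IsFiniteMeasure μ ∧ ∀ z : ℂ, z.im ≠ 0 →
    (∫ x, ((x : ℂ) - z)⁻¹ ∂μ) = inner ℂ ψ (Ring.inverse (H - z • (1 : X →L[ℂ] X)) ψ)

/-- The operator on `X` that acts as `Δ` in the coordinates `ev` has a spectral measure that is not
singular with respect to Lebesgue measure. -/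
def HasAC {d : ℕ} (X : Type) [NormedAddCommGroup X] [InnerProductSpace ℂ X]
    (ev : X → (Fin d → ℤ) → ℂ) (ω : (Fin d → ℤ) → Bool) : Prop :=
  ∃ H : X →L[ℂ] X, (∀ u : X, ActsAs ω (ev u) (ev (H u))) ∧
    ∃ (ψ : X) (μ : Measure ℝ), IsSpectralMeasure H ψ μ ∧ ¬ μ ⟂ₘ volume

theorem result : ∃ d : ℕ, 2 ≤ d ∧
    0 < Measure.infinitePi (fun _ : Fin d → ℤ => (PMF.uniformOfFintype Bool).toMeasure)
      {ω | HasAC (lp (fun _ : Fin d → ℤ => ℂ) 2) (fun u j => u j) ω} := by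
  obtain ⟨d, hd, h⟩ := Pool.Agent.P.MP_d0f69c_mp.XS.all_B
  refine ⟨d, hd, pos_iff_ne_zero.2 fun e => h ?_⟩
  filter_upwards [measure_eq_zero_iff_ae_notMem.1 e] with ω hω H hH ψ μ hμ hz
  by_contra c
  exact hω ⟨H, fun u j => by simpa using hH u j, ψ, μ, ⟨hμ, hz⟩, c⟩

end Pool.Agent.Results.MP_d0f69c_mp.UnitCouplingAC
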